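import Pool.Agent.H57Z.NonrepCount

namespace Pool.Agent.Results.MP_b63a31_co.AExponentialFails

open Pool.Agent.H57Z.Nonrep

/-- There is a constant `c` such that the finite graphs with `∇_r ≤ c ^ (r+1)` for all `r` have
unbounded nonrepetitive chromatic number. -/
theorem result : ∃ c : ℕ, ∀ k : ℕ, ∃ (V : Type) (_ : Fintype V) (G : SimpleGraph V),
    ExpansionLE G (fun r => c ^ (r + 1)) ∧ ∀ col : V → Fin k, ¬ Nonrepetitive G col :=
  ⟨2 ^ 24, fun k => ⟨_, inferInstance, G nn (3 * (k + 1)), expansion _, not_nonrep k⟩⟩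

end Pool.Agent.Results.MP_b63a31_co.AExponentialFails
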